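import Mathlib
import Pool.Agent.Work.MP_763b10_co.AC.Vac

set_option autoImplicit false

open MeasureTheory Filter

namespace Pool.Agent.Results.MP_763b10_co.ContinuousLimit

/-- Blocking sets of planar sets `P` without three collinear points; `Q` blocks `P` when every open segment between
two points of `P` contains a point of `Q`.  A function `u` is monotone along the segments of `P` when its value at a
point of an open segment between two points of `P` lies between the values at these two points.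

Let `Q n` block `P n`, `|P n| → ∞`, let `u n`, `v n` be real functions monotone along the segments of `P n` (for
example the coordinates after an affine map depending on `n`, or the ranks of the coordinates), and let `ρ` be a
finite measure on the plane whose first marginal has no atoms and almost all of whose conditional measures have no
atoms, such that asymptotically the empirical measures of the points `(u n p, v n p)`, `p ∈ P n`, are at least `ρ`
(tested on nonnegative continuous functions of compact support).  Then for every `c < 4 ρ(ℝ²)` one has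
`c |P n| ≤ |Q n|` for all large `n`.

In particular: if the empirical measures of `P n` converge vaguely to the finite measure `μ`, then for every `c` less
than four times the mass of the absolutely continuous part of `μ` one has `c |P n| ≤ |Q n|` for all large `n`. -/
theorem result :
    (∀ P Q : ℕ → Finset (ℝ × ℝ),
      (∀ n, ∀ a ∈ P n, ∀ b ∈ P n, ∀ c ∈ P n, a ≠ b → a ≠ c → b ≠ c →
        ¬ Collinear ℝ ({a, b, c} : Set (ℝ × ℝ))) →
      (∀ n, ∀ p ∈ P n, ∀ q ∈ P n, p ≠ q → ∃ x ∈ Q n, x ∈ openSegment ℝ p q) →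
      Tendsto (fun n => (P n).card) atTop atTop →
      ∀ u v : ℕ → ℝ × ℝ → ℝ,
      (∀ n, ∀ p ∈ P n, ∀ q ∈ P n, ∀ x ∈ openSegment ℝ p q, u n x ∈ Set.uIcc (u n p) (u n q)) →
      (∀ n, ∀ p ∈ P n, ∀ q ∈ P n, ∀ x ∈ openSegment ℝ p q, v n x ∈ Set.uIcc (v n p) (v n q)) →
      ∀ (ρ : Measure (ℝ × ℝ)) [IsFiniteMeasure ρ],
      (∀ x, ρ.fst {x} = 0) → (∀ᵐ t ∂ρ.fst, ∀ y, ρ.condKernel t {y} = 0) →
      (∀ φ : ℝ × ℝ → ℝ, Continuous φ → HasCompactSupport φ → (∀ x, 0 ≤ φ x) → ∀ δ > 0,
        ∀ᶠ n in atTop,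
          ((∫ x, φ x ∂ρ) - δ) * ((P n).card : ℝ) ≤ ∑ p ∈ P n, φ (u n p, v n p)) →
      ∀ c : ℝ, c < 4 * ρ.real Set.univ →
        ∀ᶠ n in atTop, c * ((P n).card : ℝ) ≤ ((Q n).card : ℝ)) ∧
    (∀ P Q : ℕ → Finset (ℝ × ℝ),
      (∀ n, ∀ a ∈ P n, ∀ b ∈ P n, ∀ c ∈ P n, a ≠ b → a ≠ c → b ≠ c →
        ¬ Collinear ℝ ({a, b, c} : Set (ℝ × ℝ))) →
      (∀ n, ∀ p ∈ P n, ∀ q ∈ P n, p ≠ q → ∃ x ∈ Q n, x ∈ openSegment ℝ p q) →
      Tendsto (fun n => (P n).card) atTop atTop →
      ∀ (μ : Measure (ℝ × ℝ)) [IsFiniteMeasure μ],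
      (∀ φ : ℝ × ℝ → ℝ, Continuous φ → HasCompactSupport φ →
        Tendsto (fun n => (∑ p ∈ P n, φ p) / ((P n).card : ℝ)) atTop (nhds (∫ x, φ x ∂μ))) →
      ∀ c : ℝ, c < 4 * (∫⁻ x, μ.rnDeriv volume x).toReal →
        ∀ᶠ n in atTop, c * ((P n).card : ℝ) ≤ ((Q n).card : ℝ)) := by
  refine ⟨?_, ?_⟩
  · intro P Q h1 h2 h3 u v h4 h5 ρ _ h6 h7 h8 c hc
    exact Pool.Agent.Work.MP_763b10_co.AC.gen P Q h1 h2 h3 u v h4 h5 ρ h6 h7 h8 c hc
  · intro P Q h1 h2 h3 μ _ h4 c hc
    exact Pool.Agent.Work.MP_763b10_co.AC.vac P Q h1 h2 h3 μ h4 c hc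

end Pool.Agent.Results.MP_763b10_co.ContinuousLimit
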