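import Mathlib
import Pool.Agent.Work.MP_763b10_co.Fin

set_option autoImplicit false

namespace Pool.Agent.Results.MP_763b10_co.ManyRatios

/-- Let `P` be a finite set of points of the plane, no three of them collinear. A point `x` divides
the ordered pair `(p, q)` in the ratio `t` when `x = (1 - t) p + t q`.

(1) For all `C` and `ε > 0`, if `|P|` is large, then any family `D` of at most `C |P|` pairs
(point, ratio), the ratio not `0` or `1`, divides at most `ε |P|^2` ordered pairs of points of `P`.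

(2) For all `C`, `η > 0` and `ε > 0`, if `|P|` is large and `Q` is a set of at most `C |P|` points,
then at most `ε |P|^2` ordered pairs of points of `P` are divided by some `x` of `Q` in a ratio in
which `x` divides at least `η |P|` of the pairs.

(3) For all `C`, if `|P|` is large and `Q` meets all open segments between two points of `P`, then
the sum, over the points `x` of `Q`, of the number of ratios in which `x` divides pairs of points of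
`P` from the inside, is at least `C |P|`. -/
theorem result :
    (∀ C ε : ℝ, 0 < ε → ∃ N : ℕ, ∀ P : Finset (ℝ × ℝ), N ≤ P.card →
      (∀ a ∈ P, ∀ b ∈ P, ∀ c ∈ P, a ≠ b → a ≠ c → b ≠ c →
        ¬ Collinear ℝ ({a, b, c} : Set (ℝ × ℝ))) →
      ∀ D : Finset ((ℝ × ℝ) × ℝ), (∀ d ∈ D, d.2 ≠ 0 ∧ d.2 ≠ 1) →
        (D.card : ℝ) ≤ C * (P.card : ℝ) →
        (Set.ncard {e : (ℝ × ℝ) × (ℝ × ℝ) | e.1 ∈ P ∧ e.2 ∈ P ∧ e.1 ≠ e.2 ∧
          ∃ d ∈ D, d.1 = (1 - d.2) • e.1 + d.2 • e.2} : ℝ) ≤ ε * (P.card : ℝ) ^ 2) ∧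
    (∀ C η ε : ℝ, 0 < η → 0 < ε → ∃ N : ℕ, ∀ P : Finset (ℝ × ℝ), N ≤ P.card →
      (∀ a ∈ P, ∀ b ∈ P, ∀ c ∈ P, a ≠ b → a ≠ c → b ≠ c →
        ¬ Collinear ℝ ({a, b, c} : Set (ℝ × ℝ))) →
      ∀ Q : Finset (ℝ × ℝ), (Q.card : ℝ) ≤ C * (P.card : ℝ) →
        (Set.ncard {e : (ℝ × ℝ) × (ℝ × ℝ) | e.1 ∈ P ∧ e.2 ∈ P ∧ e.1 ≠ e.2 ∧
          ∃ x ∈ Q, ∃ t : ℝ, t ≠ 0 ∧ t ≠ 1 ∧ x = (1 - t) • e.1 + t • e.2 ∧
            η * (P.card : ℝ) ≤ (Set.ncard {f : (ℝ × ℝ) × (ℝ × ℝ) | f.1 ∈ P ∧ f.2 ∈ P ∧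
              f.1 ≠ f.2 ∧ x = (1 - t) • f.1 + t • f.2} : ℝ)} : ℝ) ≤ ε * (P.card : ℝ) ^ 2) ∧
    (∀ C : ℝ, ∃ N : ℕ, ∀ P : Finset (ℝ × ℝ), N ≤ P.card →
      (∀ a ∈ P, ∀ b ∈ P, ∀ c ∈ P, a ≠ b → a ≠ c → b ≠ c →
        ¬ Collinear ℝ ({a, b, c} : Set (ℝ × ℝ))) →
      ∀ Q : Finset (ℝ × ℝ),
        (∀ p ∈ P, ∀ q ∈ P, p ≠ q → ∃ x ∈ Q, x ∈ openSegment ℝ p q) →
        C * (P.card : ℝ) ≤ ∑ x ∈ Q, (Set.ncard {t : ℝ | 0 < t ∧ t < 1 ∧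
          ∃ p ∈ P, ∃ q ∈ P, p ≠ q ∧ x = (1 - t) • p + t • q} : ℝ)) :=
  ⟨Pool.Agent.Work.MP_763b10_co.divided, Pool.Agent.Work.MP_763b10_co.popular,
    Pool.Agent.Work.MP_763b10_co.ratios⟩

end Pool.Agent.Results.MP_763b10_co.ManyRatios
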