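import Mathlib
import Pool.Agent.Work.MP_763b10_co.AR.Fin

set_option autoImplicit false

namespace Pool.Agent.Results.MP_763b10_co.PolynomialSize

/-- Superlinear blocking for sets of integer points of polynomial size.

For every constant `C` and every exponent `A`, for all finite sets `P` of points with integer
coordinates, with `n = |P|` large, no three points collinear and all coordinates of absolute value
at most `n^A`, such that

- either for every `m ≥ 1` every residue class of `ℤ²` modulo `m` contains at most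
  `exp ((log n)^(1/20)) * (n/m + 1)` points of `P`,
- or all first coordinates are between `0` and `n * exp ((log n)^(1/20)) / 4`:

every set `Q` of points of the plane which meets all open segments between two points of `P` has
at least `C n` points. -/
theorem result (C : ℝ) (A : ℕ) : ∃ N : ℕ, ∀ P : Finset (ℤ × ℤ), N ≤ P.card →
    (∀ a ∈ P, ∀ b ∈ P, ∀ c ∈ P, a ≠ b → a ≠ c → b ≠ c →
      ¬ Collinear ℝ ({((a.1 : ℝ), (a.2 : ℝ)), ((b.1 : ℝ), (b.2 : ℝ)),
        ((c.1 : ℝ), (c.2 : ℝ))} : Set (ℝ × ℝ))) →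
    (∀ p ∈ P, |(p.1 : ℝ)| ≤ (P.card : ℝ) ^ A ∧ |(p.2 : ℝ)| ≤ (P.card : ℝ) ^ A) →
    ((∀ m : ℕ, 1 ≤ m → ∀ a b : ℤ,
        ((P.filter fun p => (m : ℤ) ∣ p.1 - a ∧ (m : ℤ) ∣ p.2 - b).card : ℝ) ≤
          Real.exp ((Real.log P.card) ^ (1 / 20 : ℝ)) * ((P.card : ℝ) / m + 1)) ∨
      (∀ p ∈ P, 0 ≤ p.1 ∧
        (p.1 : ℝ) ≤ P.card * Real.exp ((Real.log P.card) ^ (1 / 20 : ℝ)) / 4)) →
    ∀ Q : Finset (ℝ × ℝ),
      (∀ p ∈ P, ∀ q ∈ P, p ≠ q → ∃ x ∈ Q,
        x ∈ openSegment ℝ ((p.1 : ℝ), (p.2 : ℝ)) ((q.1 : ℝ), (q.2 : ℝ))) →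
      C * (P.card : ℝ) ≤ (Q.card : ℝ) := by
  obtain ⟨N₁, h1⟩ := BlkAR.fin1 C A
  obtain ⟨N₂, h2⟩ := BlkAR.fin2 C A
  refine ⟨max N₁ N₂, ?_⟩
  intro P hn hc hA hor Q hQ
  rcases hor with h | h
  · exact h1 P ((le_max_left _ _).trans hn) hc hA h Q hQ
  · exact h2 P ((le_max_right _ _).trans hn) hc
      (fun p hp => ⟨(h p hp).1, (h p hp).2, (hA p hp).2⟩) Q hQ

end Pool.Agent.Results.MP_763b10_co.PolynomialSize
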